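import Pool.Agent.L7h90.JG.Twr
import Pool.Agent.L7h90.JG.Sys

/-!
The question Q1 for projective surfaces of general type, with singularities, with invariant jet
differentials of any order on some unramified covering of the normalisation.
-/

set_option autoImplicit false

open FF LinearAlgebra.Projectivization Pool.Agent.W602.GT Pool.Agent.N154.TB Pool.Agent.L7h90.GL
  Pool.Agent.L7h90.JG
open Pool.Agent.N155 (SymD)
open Pool.Agent.L7h90.WR (MultipleNet)

/-- Let `X = {F = 0}` be an irreducible projective surface, possibly singular, `Q : X₁ → X` a finite
birational morphism (an isomorphism outside `{D = 0}`) and `P : X' → X₁` an unramified covering,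
where `X' = {F' = 0}` is a smooth surface of general type with function field `K'` (`Tower`; for
example `X = X₁ = X'`, or `X` smooth and `X'` an unramified covering of `X`, or `X₁ = X'` the
normalisation of `X`). Let `V` be a closed subset of `X`, for the classical topology, for example
`V = X` or the closure of the image of a holomorphic map `ℂ → X`.

(1) One of the following holds. Either there is a nonconstant holomorphic map `g : ℂ → V` the Zariski
closure of which is the image of a nonconstant morphism from an elliptic curve. Or: all nonconstant
Lipschitz holomorphic maps `g' : ℂ → X'` over `V` are Zariski dense in `X'` and satisfy the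
differential equations given by all the regular invariant jet differentials of positive weight on
`X'`, of all orders (in particular by the regular symmetric differentials), whether or not they
vanish on an ample divisor; and such maps `g'` exist if there is a nonconstant holomorphic map
`ℂ → V`.

(2) Suppose that these differential equations have no common solutions in differential fields with
the field of constants `ℂ` (`JetRigid`). If there is a nonconstant holomorphic map `ℂ → V` then
there is one the Zariski closure of which is the image of a nonconstant morphism from an elliptic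
curve. So Q1 has a positive answer for `X`: if there is no nonconstant morphism from an elliptic
curve to `X`, then every holomorphic map `ℂ → X` is constant. By Brody's theorem Q1 also has a
positive answer for all projective varieties near `X`: if the `G i` are forms of the same degrees as
the `F i`, and their coefficients differ from those of the `F i` by at most `ε`, then every
holomorphic map `ℂ → {G = 0}` is constant, where `ε > 0` depends on `F` only.

(3) The hypothesis of (2) holds if, over some algebraic extension of `K'`, the differential ideal
generated by the regular invariant jet differentials of positive weight contains a product of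
Wronskians, of any orders, of functions `u 1, ..., u n` such that `1, u 1, ..., u n` are linearly
independent (`JetProduct`), in particular if such a product, times a rational function `h ≠ 0`, is
regular on `X'` (`RegularWronskians`), or if the ideal generated by the regular symmetric
differentials contains a product of exact differentials (`ExactProduct`).

(4) This is the case if `X'` has a linear system of some dimension `N > 0` with multiple members in
general position, `∑ (1 - N / r i) ≥ N + 1` (`MultipleSystem`; for example a pencil with multiple
fibres, `∑ (1 - 1 / r i) ≥ 2`, or a net with multiple lines, `∑ (1 - 2 / r i) ≥ 3`; if the net is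
given by algebraically independent functions, `MultipleNet`, then `X'` is automatically of general
type), for example if `q` members in general position are `d`-th powers, `q (1 - N / d) ≥ N + 1`
(`PowerSystem`), for example if `X'` is contained in a Fermat hypersurface
`x 0 ^ d + ... + x (N + 1) ^ d = 0` of dimension `N` and degree `d ≥ N (N + 2)`, no two of the
coordinates being proportional on `X'`, or maps to it (`FermatSystem`); and if the `d`-th powers of
`q` rational functions belong to a space `ℂ + ℂ u + ℂ v`, with algebraically independent `u`, `v`,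
any two of the powers being linearly independent, and `q (1 - 2 / d) ≥ 3` (`PowerLines`). -/
theorem Pool.Agent.Results.MP_b9fedf_ag.JetDifferentialsAllOrders.result {n n₁ n' : ℕ}
    {ι ι₁ ι' : Type} {K K' : Type} [Field K] [Algebra ℂ K] [Field K'] [Algebra ℂ K']
    (F : ι → MvPolynomial (Fin (n + 1)) ℂ) (y : Fin (n + 1) → K)
    (F₁ : ι₁ → MvPolynomial (Fin (n₁ + 1)) ℂ)
    (F' : ι' → MvPolynomial (Fin (n' + 1)) ℂ) (y' : Fin (n' + 1) → K')
    (P : Fin (n₁ + 1) → MvPolynomial (Fin (n' + 1)) ℂ)
    (Q : Fin (n + 1) → MvPolynomial (Fin (n₁ + 1)) ℂ) (D : MvPolynomial (Fin (n + 1)) ℂ)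
    (hX : Tower F' y' P F₁ Q D F y) :
    (∀ V : Set (ℙ ℂ (Fin (n + 1) → ℂ)), (∀ p ∈ V, p.rep ∈ Cone F) → IsClosedProj V →
      (∃ g, CurveIn (Cone F) g ∧ ¬ IsConst g ∧ (∀ z, g z ∈ V) ∧ EllipticClosure g) ∨
      ((∀ g', CurveIn (Cone F') g' → ¬ IsConst g' → (∀ z, img Q (img P (g' z)) ∈ V) →
          IsBrody g' → Nondeg y' g' ∧
            (∀ σ : Jet K', 0 < σ.m → σ.Regular 2 → σ.Solves y' g') ∧
            ∀ σ : SymD K', 0 < σ.d → σ.Regular 2 → σ.Tangent y' g') ∧
        ((∃ f, CurveIn (Cone F) f ∧ ¬ IsConst f ∧ ∀ z, f z ∈ V) →
          ∃ g', CurveIn (Cone F') g' ∧ ¬ IsConst g' ∧ (∀ z, img Q (img P (g' z)) ∈ V) ∧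
            IsBrody g'))) ∧
    (JetRigid K' →
      (∀ V : Set (ℙ ℂ (Fin (n + 1) → ℂ)), (∀ p ∈ V, p.rep ∈ Cone F) → IsClosedProj V →
        (∃ f, CurveIn (Cone F) f ∧ ¬ IsConst f ∧ ∀ z, f z ∈ V) →
        ∃ g, CurveIn (Cone F) g ∧ ¬ IsConst g ∧ (∀ z, g z ∈ V) ∧ EllipticClosure g) ∧
      (NoElliptic F → BrodyHyp (Cone F) ∧
        ∀ d : ι → ℕ, (∀ i, (F i).IsHomogeneous (d i)) → ∃ ε : ℝ, 0 < ε ∧
          ∀ G : ι → MvPolynomial (Fin (n + 1)) ℂ, (∀ i, (G i).IsHomogeneous (d i)) →
            (∀ i s, ‖(G i).coeff s - (F i).coeff s‖ ≤ ε) → BrodyHyp (Cone G))) ∧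
    (JetProduct K' → JetRigid K') ∧
    (RegularWronskians K' ∨ ExactProduct K' → JetProduct K') ∧
    (MultipleSystem K' ∨ MultipleNet K' → RegularWronskians K') ∧
    (FermatSystem K' → PowerSystem K') ∧ (PowerSystem K' → MultipleSystem K') ∧
    (PowerLines K' → JetProduct K') ∧
    ∀ (M : Type) [Field M] [Algebra ℂ M], Algebra.trdeg ℂ M = 2 → MultipleNet M →
      GeneralType ℂ M 2 := by
  refine ⟨fun V _ hV => ?_, fun hW => ⟨fun V _ hV hf => tower_rigid hX hW hV hf, fun hell => ?_⟩,
    rigid_of_product, fun h => ?_, fun h => ?_, powers_of_fermat, system_of_powers,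
    fun h => product_of_jt hX.smooth.sub.dim
      (Pool.Agent.L7h90.JT.product_of_lines hX.smooth.sub.dim h),
    fun M _ _ htr hM => Pool.Agent.L7h90.WR.general_of_net htr hM⟩
  · rcases tower_jet hX hV with h | ⟨h1, h2⟩
    · exact Or.inl h
    · rcases hX.web hV with h | ⟨h3, -⟩
      · exact Or.inl h
      · exact Or.inr ⟨fun g' k1 k2 k3 k4 => ⟨(h1 g' k1 k2 k3 k4).1, (h1 g' k1 k2 k3 k4).2,
          (h3 g' k1 k2 k3 k4).2⟩, fun hf => (h2 hf).2⟩
  · have hB := tower_jet_hyp hX hW hell
    exact ⟨hB, fun d hd => open_hyp hd hB⟩
  · rcases h with h | h
    · exact product_of_wronskians h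
    · exact product_of_jt hX.smooth.sub.dim
        (Pool.Agent.L7h90.JT.product_of_exact hX.smooth.sub.dim h)
  · rcases h with h | h
    · exact wronskians_of_system h
    · exact wronskians_of_jt (Pool.Agent.L7h90.JT.regular_of_wronskian
        (Pool.Agent.L7h90.WR.wronskian_of_net h))
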