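import Pool.Agent.L7h90.FW.Mul

/-!
The question Q1 for projective varieties, of any dimension and with arbitrary singularities, on the
subvarieties of which there are linearly dependent forms of high multiplicities (for example, for the
varieties with a finite morphism, given by forms without common zeros, to an intersection of
hypersurfaces of Fermat type).
-/

set_option autoImplicit false

open FF LinearAlgebra.Projectivization Pool.Agent.W602.GT Pool.Agent.N154.TB Pool.Agent.L7h90.GL
open Pool.Agent.L7h90.FW (Splits AllDep ClosureDim HypNear)

/-- Let `X = {F = 0}` be a projective variety; reducible and singular varieties are allowed. A closed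
subvariety `Z` of `X` is called dependent if there are `s` forms `H i` of the same degree which are
neither zero nor proportional to each other, but linearly dependent on `Z`, and `m ≥ 1`,
`m ≥ (s - 1)²`, such that each `H i` vanishes along each Zariski dense holomorphic arc in `Z` to an
order divisible by `m`. (For example, the `H i` are `m`-th powers of forms, or their divisors on the
normalisation of `Z` are `m` times Cartier divisors; `s` and `m` may depend on `Z`.)

(1) If all closed subvarieties of `X` of dimension at least `w` are dependent (`AllDep`), then the
Zariski closure of the image of each nonconstant holomorphic map `ℂ → X` has dimension less than `w`;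
if it is a curve, it is the image of a nonconstant morphism from an elliptic curve.

(2) So Q1 has a positive answer for `X`, even with elliptic curves only, if all closed subvarieties of
`X` of dimension at least two are dependent: if there is no nonconstant morphism from an elliptic
curve to `X`, then every holomorphic map `ℂ → X` is constant, and the same is true for all projective
varieties near `X` (`HypNear`).

(3) If all closed subvarieties of positive dimension are dependent, then every holomorphic map `ℂ → X`
is constant, and the same is true for all projective varieties near `X`.

(4) All closed subvarieties of `X` of dimension at least `w` are dependent if there are forms `G i`,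
`i < q`, of the same degree without common zeros on `X`, the `m`-th powers of which satisfy on `X` the
linear equations of a subspace `W` of `ℂ^q` with `m ≥ (dim W)²`, and `W` does not contain `w + 1`
nonzero vectors with pairwise disjoint supports. (So `X` has a finite morphism to
`Y = {y ∈ ℙ^(q - 1) : (y i ^ m) ∈ W}`, an intersection of hypersurfaces of Fermat type. If `W` is a
general subspace of dimension `d + 1`, its nonzero vectors have at least `q - d` nonzero coordinates,
and the condition is satisfied if `q < (w + 1) * (q - d)`. Hence Q1 has a positive answer for all `X`
with a finite morphism to `Y` given by forms of the same degree without common zeros on `X` if `Y` is a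
general intersection of `a = q - 1 - d` hypersurfaces of Fermat type of the same degree `m ≥ (d + 1)²`
and `d = dim Y ≤ 2 * a + 1`, for example for all `X` with such a finite morphism to the Fermat threefold
in `ℙ⁴` of degree `m ≥ 16`.) -/
theorem Pool.Agent.Results.MP_b9fedf_ag.OverFermatIntersections.result {n : ℕ} {ι : Type}
    (F : ι → MvPolynomial (Fin (n + 1)) ℂ) (hF : ∀ i, IsForm (F i)) :
    (∀ w, AllDep F w → ∀ f, CurveIn (Cone F) f → ¬ IsConst f →
      ∃ t, 1 ≤ t ∧ t < w ∧ ClosureDim F f t ∧ (t = 1 → EllipticClosure f)) ∧
    (AllDep F 2 → NoElliptic F → HypNear F) ∧
    (AllDep F 1 → HypNear F) ∧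
    ∀ (q m e w : ℕ) (G : Fin q → MvPolynomial (Fin (n + 1)) ℂ) (W : Submodule ℂ (Fin q → ℂ)),
      1 ≤ e → (∀ i, (G i).IsHomogeneous e) → (∀ x ∈ Cone F, ∃ i, val x (G i) ≠ 0) →
      1 ≤ m → Module.finrank ℂ W ^ 2 ≤ m → (∀ x ∈ Cone F, (fun i => val x (G i) ^ m) ∈ W) →
      ¬ Splits W (w + 1) → AllDep F w :=
  ⟨fun _ h _ hf hne => Pool.Agent.L7h90.FW.main_dim' hF h hf hne,
    fun h hN => Pool.Agent.L7h90.FW.hyp_of_elliptic' hF h hN,
    fun h => Pool.Agent.L7h90.FW.hyp_of_all' hF h,
    fun _ _ _ _ _ _ he hGe hG hm1 hm hW hk =>
      (Pool.Agent.L7h90.FW.all_of_noBase hF he hGe hG hm1 hm hW hk).allDep⟩
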