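import Pool.Agent.L7h90.GL.Tow
import Pool.Agent.L7h90.GL.Opn

/-!
The question Q1 for projective surfaces of general type, with singularities, for which some
unramified covering of the normalisation is smooth and has a map to an abelian variety.
-/

set_option autoImplicit false

open FF LinearAlgebra.Projectivization Pool.Agent.W602.GT Pool.Agent.N154.TB Pool.Agent.L7h90.GL
open Pool.Agent.N154.GG (projDist)
open Pool.Agent.N154.TT (HolToTorus RiemannForm)

/-- Let `X = {F = 0}` be an irreducible projective surface, possibly singular, `Q : X₁ → X` a finite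
birational morphism (an isomorphism outside `{D = 0}`) and `P : X' → X₁` an unramified covering,
where `X' = {F' = 0}` is a smooth surface of general type (`Tower`; for example `X = X₁ = X'`, or `X`
smooth and `X'` an unramified covering of `X`, or `X₁ = X'` the normalisation of `X`). Let
`α : X' → A = ℂᵐ / Λ` be a holomorphic map to an abelian variety (`H` is a Riemann form) no fibre of
which is Zariski dense in `X'` (by Chow's theorem: `α` is any map which is not constant).

(1) Every nonconstant holomorphic map `f : ℂ → X` has in the closure of its image a nonconstant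
holomorphic map `g : ℂ → X` the Zariski closure of which is the image of a nonconstant morphism
from an elliptic curve.

(2) So Q1 has a positive answer for `X`: if there is no nonconstant morphism from an elliptic curve
to `X`, then every holomorphic map `ℂ → X` is constant; moreover, by Brody's theorem, Q1 has a
positive answer for all projective varieties near `X`: if the `G i` are forms of the same degrees
as the `F i`, and their coefficients differ from those of the `F i` by at most `ε`, then every
holomorphic map `ℂ → {G = 0}` is constant, where `ε > 0` depends on `F` only. (The varieties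
`{G = 0}` may be simply connected, for example smooth surfaces in `ℙ³` near a singular one.)

(3) There is a curve `{G = 0}` on `X'`, independent of the abelian variety of dimension `m` and of
`α`, such that for every closed subset `V` of `X` (for the classical topology; for example `V = X`)
one of the following holds: there is a nonconstant holomorphic map `g : ℂ → V`, in `{D = 0}` or in
the image of a fibre of `α` or of `{G = 0}`, the Zariski closure of which is the image of an
elliptic curve; or there is a finite set `T` of maps from elliptic curves to `V` such that every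
nonconstant holomorphic map `ℂ → V` is the composition of an entire function and a map in `T`. -/
theorem Pool.Agent.Results.MP_b9fedf_ag.VirtuallyIrregularSurfaces.result {n n₁ n' : ℕ}
    {ι ι₁ ι' : Type} {K K' : Type} [Field K] [Algebra ℂ K] [Field K'] [Algebra ℂ K']
    (F : ι → MvPolynomial (Fin (n + 1)) ℂ) (y : Fin (n + 1) → K)
    (F₁ : ι₁ → MvPolynomial (Fin (n₁ + 1)) ℂ)
    (F' : ι' → MvPolynomial (Fin (n' + 1)) ℂ) (y' : Fin (n' + 1) → K')
    (P : Fin (n₁ + 1) → MvPolynomial (Fin (n' + 1)) ℂ)
    (Q : Fin (n + 1) → MvPolynomial (Fin (n₁ + 1)) ℂ) (D : MvPolynomial (Fin (n + 1)) ℂ)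
    (hX : Tower F' y' P F₁ Q D F y) (m : ℕ) :
    (∀ (Λ : Submodule ℤ (Fin m → ℂ)) [DiscreteTopology Λ] [IsZLattice ℝ Λ]
      (H : (Fin m → ℂ) → (Fin m → ℂ) → ℂ) (_ : RiemannForm Λ H)
      (α : (Fin (n' + 1) → ℂ) → (Fin m → ℂ) ⧸ Λ) (_ : HolToTorus (Cone F') Λ α)
      (_ : ThinFibres F' y' α),
      (∀ f, CurveIn (Cone F) f → ¬ IsConst f → ∃ g, CurveIn (Cone F) g ∧ ¬ IsConst g ∧
        (∀ z, ∀ ε > 0, ∃ w, projDist (g z) (f w) < ε) ∧ EllipticClosure g) ∧
      (NoElliptic F → BrodyHyp (Cone F) ∧
        ∀ d : ι → ℕ, (∀ i, (F i).IsHomogeneous (d i)) → ∃ ε : ℝ, 0 < ε ∧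
          ∀ G : ι → MvPolynomial (Fin (n + 1)) ℂ, (∀ i, (G i).IsHomogeneous (d i)) →
            (∀ i s, ‖(G i).coeff s - (F i).coeff s‖ ≤ ε) → BrodyHyp (Cone G))) ∧
    ∃ G : MvPolynomial (Fin (n' + 1)) ℂ, IsForm G ∧ val y' G ≠ 0 ∧
      ∀ (Λ : Submodule ℤ (Fin m → ℂ)) [DiscreteTopology Λ] [IsZLattice ℝ Λ]
        (H : (Fin m → ℂ) → (Fin m → ℂ) → ℂ) (_ : RiemannForm Λ H)
        (α : (Fin (n' + 1) → ℂ) → (Fin m → ℂ) ⧸ Λ) (_ : HolToTorus (Cone F') Λ α)
        (_ : ThinFibres F' y' α) (V : Set (ℙ ℂ (Fin (n + 1) → ℂ))), (∀ p ∈ V, p.rep ∈ Cone F) →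
        IsClosedProj V →
        (∃ g, CurveIn (Cone F) g ∧ ¬ IsConst g ∧ (∀ z, g z ∈ V) ∧ EllipticClosure g ∧
          ((∀ z, val (g z).rep D = 0) ∨ ∃ g', CurveIn (Cone F') g' ∧
            (∀ z, g z = img Q (img P (g' z))) ∧
            ((∀ z w, α (g' z).rep = α (g' w).rep) ∨ ∀ z, val (g' z).rep G = 0))) ∨
        ∃ T : Set (ℂ → ℙ ℂ (Fin (n + 1) → ℂ)), T.Finite ∧
          (∀ g ∈ T, CurveIn (Cone F) g ∧ (∀ z, g z ∈ V) ∧ Elliptic g ∧ EllipticClosure g) ∧
          ∀ f, CurveIn (Cone F) f → (∀ z, f z ∈ V) → IsConst f ∨ Factors T f := by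
  refine ⟨fun Λ _ _ H hH α hα hfib => ⟨fun f hf hne => hX.curve hH hα hfib hf hne,
    fun hell => ?_⟩, hX.closed m⟩
  have hB : BrodyHyp (Cone F) := by
    intro f hf
    by_contra hne
    obtain ⟨g, hg, -, -, hc⟩ := hX.curve hH hα hfib hf hne
    exact hell.of_closure hX.form hg.2 hc
  exact ⟨hB, fun d hd => open_hyp hd hB⟩
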